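import Pool.Agent.Y882.GP.Defs

set_option autoImplicit false

/-!
# GP-BES: Bessel inequality for primitive characters and roots of polynomial congruences
-/

namespace Pool.Agent.Y356.GP

open Finset Polynomial
open H343 (ex)
open Pool.Agent.Helper112
open Pool.Agent.Y882.PX (ro ro_eq)
open Pool.Agent.Y882.GP

/-- the reduction of the polynomial -/
noncomputable def Pm (F : ℤ[X]) (f : ℕ) (a : ZMod f) : ZMod f :=
  (F.map (Int.castRingHom (ZMod f))).eval a

lemma Pm_nat (F : ℤ[X]) (f : ℕ) (n : ℕ) :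
    Pm F f (n : ZMod f) = ((F.eval (n : ℤ) : ℤ) : ZMod f) := by
  unfold Pm
  have h := Polynomial.eval_intCast_map (Int.castRingHom (ZMod f)) F (n : ℤ)
  rw [Int.cast_natCast] at h
  rw [h]
  simp

/-- the sums of the weights against the additive characters -/
noncomputable def Wh (f : ℕ) [NeZero f] (w : ℤ → ℝ) (S : Finset ℤ) (j : ZMod f) : ℂ :=
  ∑ k ∈ S, (w k : ℂ) * ZMod.stdAddChar (j * (k : ZMod f))

lemma sum_range_real (q : ℕ) [NeZero q] (g : ZMod q → ℝ) :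
    ∑ b ∈ range q, g (b : ZMod q) = ∑ a : ZMod q, g a := by
  apply sum_bij (fun (b : ℕ) _ => (b : ZMod q))
  · intro b _; exact mem_univ _
  · intro a ha b hb hab
    rw [mem_range] at ha hb
    have := congrArg ZMod.val hab
    rwa [ZMod.val_natCast, ZMod.val_natCast, Nat.mod_eq_of_lt ha, Nat.mod_eq_of_lt hb] at this
  · intro b _
    exact ⟨b.val, mem_range.mpr (ZMod.val_lt b), by simp⟩
  · intro a _; rfl

lemma tw_eq (F : ℤ[X]) (k : ℤ) (f : ℕ) [NeZero f] (ψ : DirichletCharacter ℂ f) :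
    tw F k f ψ =
      ∑ a : ZMod f, ψ⁻¹ a * (if Pm F f a + (k : ZMod f) = 0 then (1 : ℂ) else 0) := by
  rw [← H343.Gauss.sum_range_eq f
    (fun a => ψ⁻¹ a * (if Pm F f a + (k : ZMod f) = 0 then (1 : ℂ) else 0))]
  unfold tw Rt
  rw [sum_filter]
  apply sum_congr rfl
  intro a _
  have h1 : ψ⁻¹ (a : ZMod f) = (starRingEnd ℂ) (ψ (a : ZMod f)) := by
    rw [← RCLike.star_def, MulChar.star_apply']
  rw [h1, Pm_nat]
  have h2 : (((F.eval (a : ℤ) : ℤ) : ZMod f) + (k : ZMod f) = 0) ↔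
      (f : ℤ) ∣ F.eval (a : ℤ) + k := by
    rw [← Int.cast_add, ZMod.intCast_zmod_eq_zero_iff_dvd]
  by_cases h3 : a.Coprime f
  · by_cases h4 : (f : ℤ) ∣ F.eval (a : ℤ) + k
    · rw [if_pos ⟨h4, h3⟩, if_pos (h2.2 h4), mul_one]
    · rw [if_neg (fun h => h4 h.1), if_neg (fun h => h4 (h2.1 h)), mul_zero]
  · rw [if_neg (fun h => h3 h.2)]
    have h5 : ψ (a : ZMod f) = 0 :=
      MulChar.map_nonunit _ (fun hu => h3 ((ZMod.isUnit_iff_coprime a f).mp hu))
    rw [h5, map_zero, zero_mul]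

lemma WW_eq (F : ℤ[X]) (w : ℤ → ℝ) (S : Finset ℤ) (f : ℕ) [NeZero f]
    (ψ : DirichletCharacter ℂ f) :
    WW F w S f ψ = ∑ j : ZMod f, (1 / (f : ℂ) * Wh f w S j) *
      ∑ a : ZMod f, ψ⁻¹ a * ZMod.stdAddChar (j * Pm F f a) := by
  unfold WW Wh
  have hf : (f : ℂ) ≠ 0 := by exact_mod_cast NeZero.ne f
  have h1 : ∀ (k : ℤ) (a : ZMod f), (if Pm F f a + (k : ZMod f) = 0 then (1 : ℂ) else 0) =
      ∑ j : ZMod f, (1 / (f : ℂ)) * (ZMod.stdAddChar (j * (k : ZMod f)) *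
        ZMod.stdAddChar (j * Pm F f a)) := by
    intro k a
    have h2 := AddChar.sum_mulShift (Pm F f a + (k : ZMod f)) (ZMod.isPrimitive_stdAddChar f)
    have h3 : ∀ j : ZMod f, ZMod.stdAddChar (j * (k : ZMod f)) * ZMod.stdAddChar (j * Pm F f a) =
        (ZMod.stdAddChar (j * (Pm F f a + (k : ZMod f))) : ℂ) := by
      intro j
      rw [← AddChar.map_add_eq_mul]
      congr 1
      ring
    rw [← mul_sum, sum_congr rfl fun j _ => h3 j, h2, ZMod.card]
    split_ifs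
    · field_simp
    · simp
  have h4 : ∀ k ∈ S, (w k : ℂ) * tw F k f ψ = ∑ j : ZMod f, ∑ a : ZMod f,
      (1 / (f : ℂ) * ((w k : ℂ) * ZMod.stdAddChar (j * (k : ZMod f)))) *
        (ψ⁻¹ a * ZMod.stdAddChar (j * Pm F f a)) := by
    intro k _
    rw [tw_eq, sum_comm, mul_sum]
    apply sum_congr rfl
    intro a _
    rw [h1 k a, mul_sum, mul_sum]
    apply sum_congr rfl
    intro j _
    ring
  rw [sum_congr rfl h4, sum_comm]
  apply sum_congr rfl
  intro j _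
  rw [sum_congr rfl fun k _ => (mul_sum _ _ _).symm, ← sum_mul, ← mul_sum]

lemma van (F : ℤ[X]) (f : ℕ) [NeZero f] (χ : DirichletCharacter ℂ f) (hχ : χ.IsPrimitive)
    (j : ZMod f) (hj : ¬ IsUnit j) :
    ∑ a : ZMod f, χ a * ZMod.stdAddChar (j * Pm F f a) = 0 := by
  have hf0 : 0 < f := NeZero.pos f
  set g := Nat.gcd j.val f with hg
  have hg1 : g ≠ 1 := by
    intro h
    apply hj
    have h2 := (ZMod.isUnit_iff_coprime j.val f).mpr h
    rwa [ZMod.natCast_zmod_val] at h2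
  have hg0 : 0 < g := Nat.gcd_pos_of_pos_right _ hf0
  obtain ⟨d, hd⟩ := Nat.gcd_dvd_right j.val f
  obtain ⟨c, hc⟩ := Nat.gcd_dvd_left j.val f
  rw [← hg] at hd hc
  have hdf : d ∣ f := ⟨g, by rw [mul_comm]; exact hd⟩
  have hd0 : 0 < d := Nat.pos_of_dvd_of_pos hdf hf0
  have hlt : d < f := by
    have h2 : 2 ≤ g := by omega
    calc d < 2 * d := by omega
      _ ≤ g * d := Nat.mul_le_mul_right d h2
      _ = f := hd.symm
  have h1 : ¬ χ.FactorsThrough d := by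
    intro h
    have h2 : χ.conductor ≤ d := Nat.sInf_le h
    have h3 : χ.conductor = f := hχ
    omega
  rw [DirichletCharacter.factorsThrough_iff_ker_unitsMap hdf, SetLike.not_le_iff_exists] at h1
  obtain ⟨u, hu1, hu2⟩ := h1
  have h3 : χ (u : ZMod f) ≠ 1 := by
    intro h
    apply hu2
    rw [MonoidHom.mem_ker]
    apply Units.ext
    rw [MulChar.coe_toUnitHom, h]
    rfl
  have h4 : j * ((u : ZMod f) - 1) = 0 := by
    set x : ZMod f := (u : ZMod f) - 1 with hx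
    have h5 : ZMod.castHom hdf (ZMod d) x = 0 := by
      rw [hx, map_sub, map_one, sub_eq_zero]
      have h6 := congrArg Units.val ((MonoidHom.mem_ker).1 hu1)
      exact h6
    have h6 : (x.val : ZMod d) = 0 := by
      rw [← ZMod.natCast_zmod_val x, map_natCast] at h5
      exact h5
    rw [ZMod.natCast_eq_zero_iff] at h6
    obtain ⟨t, ht⟩ := h6
    rw [← ZMod.natCast_zmod_val j, ← ZMod.natCast_zmod_val x, ← Nat.cast_mul,
      ZMod.natCast_eq_zero_iff, hc, ht]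
    refine ⟨c * t, ?_⟩
    conv_rhs => rw [hd]
    ring
  have h5 : ∀ a : ZMod f, j * Pm F f ((u : ZMod f) * a) = j * Pm F f a := by
    intro a
    unfold Pm
    obtain ⟨q, hq⟩ := Polynomial.sub_dvd_eval_sub ((u : ZMod f) * a) a
      (F.map (Int.castRingHom (ZMod f)))
    rw [← sub_eq_zero, ← mul_sub, hq]
    calc j * (((u : ZMod f) * a - a) * q) = (j * ((u : ZMod f) - 1)) * a * q := by ring
      _ = 0 := by rw [h4]; ring
  have h6 := Function.Bijective.sum_comp (Units.mulLeft_bijective u)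
    (fun a : ZMod f => χ a * ZMod.stdAddChar (j * Pm F f a))
  have h7 : ∀ a : ZMod f, χ ((u : ZMod f) * a) * ZMod.stdAddChar (j * Pm F f ((u : ZMod f) * a)) =
      χ (u : ZMod f) * (χ a * ZMod.stdAddChar (j * Pm F f a)) := by
    intro a
    rw [h5 a, map_mul]
    ring
  simp only [h7] at h6
  rw [← mul_sum] at h6
  have h8 : (χ (u : ZMod f) - 1) * ∑ a : ZMod f, χ a * ZMod.stdAddChar (j * Pm F f a) = 0 := by
    rw [sub_mul, one_mul, h6, sub_self]
  rcases mul_eq_zero.1 h8 with h | h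
  · exact absurd (sub_eq_zero.1 h) h3
  · exact h

open Classical in
/-- the coefficients -/
noncomputable def Ph (f : ℕ) [NeZero f] (w : ℤ → ℝ) (S : Finset ℤ) (j : ZMod f) : ℂ :=
  if IsUnit j then 1 / (f : ℂ) * Wh f w S j else 0

/-- the sums over the reduced fractions -/
noncomputable def Hh (f : ℕ) [NeZero f] (w : ℤ → ℝ) (S : Finset ℤ) (b : ZMod f) : ℂ :=
  ∑ j : ZMod f, Ph f w S j * ZMod.stdAddChar (b * j)

lemma WW_prim (F : ℤ[X]) (w : ℤ → ℝ) (S : Finset ℤ) (f : ℕ) [NeZero f]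
    (ψ : DirichletCharacter ℂ f) (hψ : ψ.IsPrimitive) :
    WW F w S f ψ = ∑ a : ZMod f, ψ⁻¹ a * Hh f w S (Pm F f a) := by
  have hinv : (ψ⁻¹).IsPrimitive := by
    rw [DirichletCharacter.isPrimitive_def, DirichletCharacter.conductor_inv]
    exact hψ
  have h1 : ∀ j : ZMod f, (1 / (f : ℂ) * Wh f w S j) *
      ∑ a : ZMod f, ψ⁻¹ a * ZMod.stdAddChar (j * Pm F f a) =
      ∑ a : ZMod f, ψ⁻¹ a * (Ph f w S j * ZMod.stdAddChar (Pm F f a * j)) := by
    intro j
    have h2 : ∑ a : ZMod f, ψ⁻¹ a * (Ph f w S j * ZMod.stdAddChar (Pm F f a * j)) =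
        Ph f w S j * ∑ a : ZMod f, ψ⁻¹ a * ZMod.stdAddChar (j * Pm F f a) := by
      rw [mul_sum]
      apply sum_congr rfl
      intro a _
      rw [mul_comm (Pm F f a) j]
      ring
    rw [h2]
    unfold Ph
    by_cases hj : IsUnit j
    · rw [if_pos hj]
    · rw [van F f ψ⁻¹ hinv j hj, mul_zero, mul_zero]
  rw [WW_eq, sum_congr rfl fun j _ => h1 j, sum_comm]
  apply sum_congr rfl
  intro a _
  unfold Hh
  rw [mul_sum]

lemma fib (F : ℤ[X]) (f : ℕ) [NeZero f] (B : ℝ) (hB : ∀ k : ℤ, (ro F k f : ℝ) ≤ B)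
    (b : ZMod f) : (((univ : Finset (ZMod f)).filter (fun a => Pm F f a = b)).card : ℝ) ≤ B := by
  refine le_trans ?_ (hB (-(b.val : ℤ)))
  rw [ro_eq]
  have h1 : ((univ : Finset (ZMod f)).filter (fun a => Pm F f a = b)).card ≤
      ((range f).filter (fun n : ℕ => (f : ℤ) ∣ F.eval (n : ℤ) + -(b.val : ℤ))).card := by
    apply card_le_card_of_injOn (fun a : ZMod f => a.val)
    · intro a ha
      rw [mem_coe, mem_filter] at ha
      rw [mem_coe, mem_filter, mem_range]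
      refine ⟨ZMod.val_lt _, ?_⟩
      rw [← ZMod.intCast_zmod_eq_zero_iff_dvd, Int.cast_add, ← Pm_nat, ZMod.natCast_zmod_val,
        ha.2]
      simp
    · intro a _ a' _ h
      exact ZMod.val_injective f h
  exact_mod_cast h1

lemma norm_Ph (f : ℕ) [NeZero f] (w : ℤ → ℝ) (S : Finset ℤ) :
    ∑ j : ZMod f, ‖Ph f w S j‖ ^ 2 = (1 / (f : ℝ)) ^ 2 *
      ∑ b ∈ (range f).filter (fun b => b.Coprime f),
        ‖∑ k ∈ S, (w k : ℂ) * ex ((b : ℝ) * k / f)‖ ^ 2 := by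
  rw [← sum_range_real f (fun j => ‖Ph f w S j‖ ^ 2), mul_sum, sum_filter]
  apply sum_congr rfl
  intro b _
  unfold Ph
  by_cases h : b.Coprime f
  · rw [if_pos ((ZMod.isUnit_iff_coprime b f).mpr h), if_pos h, norm_mul, mul_pow]
    congr 1
    · rw [norm_div, norm_one, Complex.norm_natCast]
    · congr 2
      unfold Wh
      apply sum_congr rfl
      intro k _
      congr 1
      have h2 : ((b : ZMod f) * (k : ZMod f)) = ((((b : ℤ) * k : ℤ)) : ZMod f) := by push_cast; rfl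
      rw [h2, ZMod.stdAddChar_coe]
      unfold ex
      congr 1
      push_cast
      ring
  · rw [if_neg (fun hu => h ((ZMod.isUnit_iff_coprime b f).mp hu)), if_neg h, norm_zero]
    norm_num

theorem bes : St_BES := by
  classical
  intro F w S f hf B hB
  have : NeZero f := ⟨hf.ne'⟩
  have hfr : (0 : ℝ) < f := by exact_mod_cast hf
  have h0 : (0 : ℝ) < (Nat.totient f : ℝ) := by exact_mod_cast Nat.totient_pos.mpr hf
  have hB0 : 0 ≤ B := (Nat.cast_nonneg _).trans (hB 0)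
  have h1 : ∑ ψ ∈ (univ : Finset (DirichletCharacter ℂ f)).filter (fun ψ => ψ.IsPrimitive),
      ‖WW F w S f ψ‖ ^ 2 ≤ (Nat.totient f : ℝ) * ∑ a : (ZMod f)ˣ,
        ‖Hh f w S (Pm F f (a : ZMod f))‖ ^ 2 := by
    rw [← MLS.sum_all f (fun a => Hh f w S (Pm F f a))]
    calc ∑ ψ ∈ (univ : Finset (DirichletCharacter ℂ f)).filter (fun ψ => ψ.IsPrimitive),
          ‖WW F w S f ψ‖ ^ 2 =
        ∑ ψ ∈ (univ : Finset (DirichletCharacter ℂ f)).filter (fun ψ => ψ.IsPrimitive),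
          ‖∑ a : ZMod f, ψ⁻¹ a * Hh f w S (Pm F f a)‖ ^ 2 := by
          apply sum_congr rfl
          intro ψ hψ
          rw [mem_filter] at hψ
          rw [WW_prim F w S f ψ hψ.2]
      _ ≤ _ := sum_le_sum_of_subset_of_nonneg (filter_subset _ _) fun _ _ _ => by positivity
  have h2 : ∑ a : (ZMod f)ˣ, ‖Hh f w S (Pm F f (a : ZMod f))‖ ^ 2 ≤
      ∑ a : ZMod f, ‖Hh f w S (Pm F f a)‖ ^ 2 := by
    have h3 : ∑ a : (ZMod f)ˣ, ‖Hh f w S (Pm F f (a : ZMod f))‖ ^ 2 =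
        ∑ a ∈ (univ : Finset (ZMod f)ˣ).image (fun u : (ZMod f)ˣ => (u : ZMod f)),
          ‖Hh f w S (Pm F f a)‖ ^ 2 := by
      rw [sum_image]
      intro x _ y _ hxy
      exact Units.ext hxy
    rw [h3]
    exact sum_le_sum_of_subset_of_nonneg (subset_univ _) fun _ _ _ => by positivity
  have h3 : ∑ a : ZMod f, ‖Hh f w S (Pm F f a)‖ ^ 2 ≤ B * ∑ b : ZMod f, ‖Hh f w S b‖ ^ 2 := by
    rw [← sum_fiberwise' (univ : Finset (ZMod f)) (fun a => Pm F f a)
      (fun b => ‖Hh f w S b‖ ^ 2), mul_sum]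
    apply sum_le_sum
    intro b _
    rw [sum_const, nsmul_eq_mul]
    exact mul_le_mul_of_nonneg_right (fib F f B hB b) (by positivity)
  have h4 : ∑ b : ZMod f, ‖Hh f w S b‖ ^ 2 = f * ∑ j : ZMod f, ‖Ph f w S j‖ ^ 2 :=
    MLS.parseval f (Ph f w S)
  rw [norm_Ph] at h4
  rw [h4] at h3
  set Z := ∑ b ∈ (range f).filter (fun b => b.Coprime f),
        ‖∑ k ∈ S, (w k : ℂ) * ex ((b : ℝ) * k / f)‖ ^ 2 with hZ
  have h5 : (Nat.totient f : ℝ) * ∑ a : (ZMod f)ˣ, ‖Hh f w S (Pm F f (a : ZMod f))‖ ^ 2 ≤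
      (Nat.totient f : ℝ) * (B * (f * ((1 / (f : ℝ)) ^ 2 * Z))) :=
    mul_le_mul_of_nonneg_left (h2.trans h3) h0.le
  calc ((f : ℝ) / (Nat.totient f : ℝ)) *
        ∑ ψ ∈ (univ : Finset (DirichletCharacter ℂ f)).filter (fun ψ => ψ.IsPrimitive),
          ‖WW F w S f ψ‖ ^ 2 ≤
      ((f : ℝ) / (Nat.totient f : ℝ)) *
        ((Nat.totient f : ℝ) * (B * (f * ((1 / (f : ℝ)) ^ 2 * Z)))) :=
        mul_le_mul_of_nonneg_left (h1.trans h5) (by positivity)
    _ = B * Z := by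
        field_simp

end Pool.Agent.Y356.GP
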